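import Pool.Agent.U723.SU.Fam

/-!
# Preperiodic points of bounded degree for 100% of the members of EVERY non-isotrivial family of
rational maps over a number field

There is a function `N(B, d)` such that for every number field `k` (of any degree), every `m` and every
family of rational maps of degree `d ≥ 2` over `k` with `m` parameters which is not isotrivial with
respect to one of its parameters, 100% of the members of the family have at most `N(B, d)` preperiodic
points of degree at most `B` over `k`. There is no other condition on the family.

The hand-ins `NonIsotrivialFamilies` (the points over `k` only, `B = 1`), `StrongFamilies` (maps with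
large critical height, quadratic and bicritical maps) and `FiniteFibreFamilies` (maps determined by
their multipliers up to finitely many choices) of this problem are the special cases known so far.

Proof. The generic member is a map over the field `k(t_1, ..., t_m)`, a function field of one variable
over the field generated by the other parameters. Strong uniform boundedness over function fields of
characteristic zero (`Pool.Agent.Q103.FS.bdg` with `orbB_zero`: Wronskian type determinants of
preperiodic points, by helper41, helper103 and others) bounds the number of its preperiodic points of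
degree at most `B` by `N(B, d)`. The transfer to 100% of the members (`Y706/CH/Fm2.lean`): the ultrapower
of `k` over an ultrafilter on the parameters which contains no set of upper density zero contains
`k(t_1, ..., t_m)` as a relatively algebraically closed subfield (Hilbert irreducibility with
densities), and two small primes of good reduction bound the periods.
-/

set_option autoImplicit false

namespace Pool.Agent.Results.MP_90787a_nt.AllNonIsotrivialFamilies

open Polynomial NumberField Filter Topology

/-- The self-map of the projective line `K ∪ {∞}`, where `none` is `∞`, given by the rational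
function `p / q`, where `p` and `q` are coprime and `d` is the larger of their degrees: it sends
`x` to `p(x) / q(x)`, or to `∞` when `q(x) = 0`, and it sends `∞` to the quotient of the
coefficients of degree `d`, or to `∞` when that of `q` is zero. -/
noncomputable def mapP1 {K : Type*} [Field K] (p q : K[X]) (d : ℕ) : Option K → Option K
  | some x => by classical exact if q.eval x = 0 then none else some (p.eval x / q.eval x)
  | none => by classical exact if q.coeff d = 0 then none else some (p.coeff d / q.coeff d)

/-- With `φ(x) = (a x + b) / (c x + e)`, the map `p / q` of degree `d` satisfies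
`φ ∘ (p / q) = (u / w) ∘ φ` for some `a, b, c, e` in `K` with `a e ≠ b c` and some polynomials
`u, w` of degree at most `d`, not both zero, with coefficients algebraic over `F`; the equation is
written with denominators cleared. -/
def IsotrivialOver (F : Type*) {K : Type*} [Field F] [Field K] [Algebra F K] (p q : K[X])
    (d : ℕ) : Prop :=
  ∃ a b c e : K, a * e - b * c ≠ 0 ∧ ∃ u w : K[X], (u ≠ 0 ∨ w ≠ 0) ∧
    u.natDegree ≤ d ∧ w.natDegree ≤ d ∧ (∀ n, IsAlgebraic F (u.coeff n)) ∧
    (∀ n, IsAlgebraic F (w.coeff n)) ∧
    (C a * p + C b * q) * ∑ i ∈ Finset.range (d + 1),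
      C (w.coeff i) * (C a * X + C b) ^ i * (C c * X + C e) ^ (d - i) =
    (C c * p + C e * q) * ∑ i ∈ Finset.range (d + 1),
      C (u.coeff i) * (C a * X + C b) ^ i * (C c * X + C e) ^ (d - i)

/-- The field `k(t_1, ..., t_m)`. -/
abbrev RF (k : Type) [Field k] (m : ℕ) : Type := FractionRing (MvPolynomial (Fin m) k)

/-- The subfield `k(t_j : j ≠ i)` of the field `k(t_1, ..., t_m)`. -/
noncomputable def others (k : Type) [Field k] {m : ℕ} (i : Fin m) : Subfield (RF k m) :=
  (IntermediateField.adjoin k {x : RF k m | ∃ j, j ≠ i ∧
    x = algebraMap (MvPolynomial (Fin m) k) (RF k m) (MvPolynomial.X j)}).toSubfield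

/-- `P ∈ k[t_1, ..., t_m][x]` as a polynomial over `k(t_1, ..., t_m)`. -/
noncomputable def generic {k : Type} [Field k] {m : ℕ} (P : (MvPolynomial (Fin m) k)[X]) :
    (RF k m)[X] :=
  P.map (algebraMap (MvPolynomial (Fin m) k) (RF k m))

/-- `P ∈ k[t_1, ..., t_m][x]` as a polynomial over an algebraic closure of `k(t_1, ..., t_m)`. -/
noncomputable def genBar {k : Type} [Field k] {m : ℕ} (P : (MvPolynomial (Fin m) k)[X]) :
    (AlgebraicClosure (RF k m))[X] :=
  (generic P).map (algebraMap (RF k m) (AlgebraicClosure (RF k m)))

/-- The specialisation of `P ∈ k[t_1, ..., t_m][x]` at `t = (v_1 / v_0, ..., v_m / v_0)`. -/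
noncomputable def special {k : Type} [Field k] {m : ℕ} (v : Fin (m + 1) → 𝓞 k)
    (P : (MvPolynomial (Fin m) k)[X]) : k[X] :=
  P.map (MvPolynomial.eval fun l : Fin m =>
    algebraMap (𝓞 k) k (v l.succ) / algebraMap (𝓞 k) k (v 0))

/-- The preperiodic points of degree at most `B` over `k` of the map `p / q` of degree `d`, in the
projective line over an algebraic closure of `k`. -/
noncomputable def preper {k : Type} [Field k] (p q : k[X]) (d B : ℕ) :
    Set (Option (AlgebraicClosure k)) :=
  {z | (Set.range fun n : ℕ => (mapP1 (p.map (algebraMap k (AlgebraicClosure k)))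
      (q.map (algebraMap k (AlgebraicClosure k))) d)^[n] z).Finite ∧
    ∀ x, z = some x → (minpoly k x).natDegree ≤ B}

/-- The vectors of integers of `k` whose coordinates with respect to the basis `ω` are at most `H`
in absolute value. -/
def box {k : Type} [Field k] {J : Type} (ω : Module.Basis J ℤ (𝓞 k)) (m H : ℕ) :
    Set (Fin (m + 1) → 𝓞 k) :=
  {v | ∀ l j, |ω.repr (v l) j| ≤ (H : ℤ)}

/-- The set `S` contains 100% of the vectors in the boxes. -/
def AlmostAll {k : Type} [Field k] {J : Type} (ω : Module.Basis J ℤ (𝓞 k)) (m : ℕ)
    (S : Set (Fin (m + 1) → 𝓞 k)) : Prop :=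
  Tendsto (fun H : ℕ => (({v | v ∈ box ω m H ∧ v ∈ S}.ncard : ℝ) / ((box ω m H).ncard : ℝ)))
    atTop (𝓝 1)

/-- There is a function `N` such that the following holds for every number field `k` (of any
degree), every integral basis `ω` of `k`, every `d ≥ 2`, `B ≥ 1` and every `m`. Let `P / Q` be
a rational map of degree `d` over `k(t_1, ..., t_m)`, `P, Q ∈ k[t_1, ..., t_m][x]`, such that over
an algebraic closure of `k(t_1, ..., t_m)` the map `P / Q` is, for some `i`, not conjugate to a map
with coefficients algebraic over `k(t_j : j ≠ i)`. Then for 100% of the vectors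
`(v_0, v_1, ..., v_m)` of integers of `k` (in the boxes given by the basis `ω`) `v_0 ≠ 0` and the
specialisation at `t = (v_1 / v_0, ..., v_m / v_0)` has degree `d` and at most `N(B, d)` preperiodic
points of degree at most `B` over `k`. -/
theorem result : ∃ N : ℕ → ℕ → ℕ, ∀ (k : Type) [Field k] [NumberField k] (J : Type)
    [Fintype J] (ω : Module.Basis J ℤ (𝓞 k)) (d B : ℕ), 2 ≤ d → 1 ≤ B →
    ∀ (m : ℕ) (P Q : (MvPolynomial (Fin m) k)[X]) (i : Fin m),
      max P.natDegree Q.natDegree = d → IsCoprime (generic P) (generic Q) →
      ¬ IsotrivialOver (others k i) (genBar P) (genBar Q) d →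
      AlmostAll ω m {v | v 0 ≠ 0 ∧ IsCoprime (special v P) (special v Q) ∧
        max (special v P).natDegree (special v Q).natDegree = d ∧
        (preper (special v P) (special v Q) d B).encard ≤ ((N B d : ℕ) : ℕ∞)} := by
  have e : ∀ (K : Type) [Field K] (p q : K[X]) (d : ℕ),
      mapP1 p q d = Pool.Agent.W277.UH.ratP1 p q d := by
    intro K _ p q d
    funext z
    cases z <;> rfl
  obtain ⟨N, hN⟩ := Pool.Agent.U723.SU.fam
  refine ⟨N, ?_⟩
  intro k _ _ J _ ω d B hd hB m P Q i hmax hco hiso
  have h := hN k J ω d B hd hB m P Q i hmax hco hiso
  have e3 : ∀ p q : k[X], preper p q d B = Pool.Agent.Y706.BI.preperB p q d B := by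
    intro p q
    unfold preper Pool.Agent.Y706.BI.preperB
    rw [e]
  simp only [e3]
  exact h

end Pool.Agent.Results.MP_90787a_nt.AllNonIsotrivialFamilies
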