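import Pool.Agent.Results.MP_90787a_nt.RandomOrbits
import Pool.Agent.U125.NO.Seq

/-!
# Preperiodic points of bounded degree in families of rational maps whose parameters are read off from the
digits of normal numbers, or run along normal words in the generators of a thin group

There is ONE function `N (B, d, A)` such that the following holds for every number field `k`, every integral basis
of `k`, every `m` and EVERY normal orbit `c_0, c_1, …` (`NormalOrbit`) of integral coordinate vectors. Let
`v_n = (v_{n,0}, …, v_{n,m})` be the vector of integers of `k` with the coordinates `c_n`, and let `P / Q` be any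
rational map of degree `d ≥ 2` over `k (t_1, …, t_m)` that is not isotrivial in the direction of some `t_i`, and
whose multiplier fibre is finite at level `A` (`IsFamily`, as in the starting result `RandomOrbits`, which is
about almost every random orbit of a thin group). For every `B ≥ 1` and for 100% of the `n` the member at
`t = (v_{n,1} / v_{n,0}, …, v_{n,m} / v_{n,0})` is defined, has degree `d`, and has at most `N (B, d, A)`
preperiodic points of degree at most `B` over `k`. The exceptional set of times of density zero can be chosen
independently of `P`, `Q`, `d`, `B` and `A`: outside of it, every family obeys its bounds from some time on.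

A normal orbit is the orbit of an integral vector under a finite family of integral affine maps along ANY
normal sequence of indices, where the family is wide: for all `q` prime to some `q₀` the maps are bijective
modulo `q`, and the vector can be moved to at least the proportion `ε > 0`, not depending on `q`, of all
vectors modulo `q`.

Examples: (1) the vectors `(⌊b ^ n x_i⌋)_i` for ANY vector `x` of real numbers which is normal to the base
`b ≥ 2`, so the quotients `v_{n,i} / v_{n,0}` converge to a fixed point of `k ⊗ ℝ` in general, and the members
are the members of the family at approximations of one fixed real (or complex) point; (2) the orbit of any vector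
`v ≠ 0` along ANY normal word in matrices which generate the special linear group modulo all `q` prime to
some `q₀` (generators of a thin group); (3) vectors of integers whose digits are chosen from a restricted
set of vectors.

Proof. The exceptional parameters are a pronull set (starting result `RandomOrbits`, from the bound for the
generic member due to helper820), and normal orbits visit a pronull set only at times of density zero (engine
`Pool.Agent.U125.NO`). There are only countably many families, and a diagonal argument gives one exceptional
set of times for all of them.
-/

set_option autoImplicit false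

namespace Pool.Agent.Results.MP_90787a_nt.NormalSequences

open Polynomial NumberField Filter Topology
open Pool.Agent.U125.NO (NormalOrbit Nul Examples examples)
open Pool.Agent.Results.MP_90787a_nt.RandomOrbits (IsFamily Good point countable_mv countable_poly)

/-- **Uniform bounds for preperiodic points in families along normal orbits.** `Nul E`: the set `E` of natural
numbers has natural density zero. -/
theorem result :
    (∃ N : ℕ → ℕ → ℕ → ℕ, ∀ (k : Type) [Field k] [NumberField k] (J : Type) [Fintype J]
      [DecidableEq J] (ω : Module.Basis J ℤ (𝓞 k)) (m : ℕ) (c : ℕ → Fin (m + 1) × J → ℤ),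
      NormalOrbit c → ∃ E : Set ℕ, Nul E ∧
        ∀ d B A : ℕ, 2 ≤ d → 1 ≤ B → ∀ P Q : (MvPolynomial (Fin m) k)[X], IsFamily P Q d A →
          {n : ℕ | n ∉ E ∧ ¬ Good P Q d B (N B d A) (point ω (c n))}.Finite) ∧
    ∀ (m : ℕ) (J : Type) [Fintype J] [DecidableEq J], Examples (Fin (m + 1) × J) := by
  obtain ⟨N, hN⟩ := Pool.Agent.Results.MP_90787a_nt.RandomOrbits.result
  refine ⟨⟨N, fun k _ _ J _ _ ω m c hc => ?_⟩, fun m J _ _ => examples _⟩
  have h := (hN k J ω m).1
  have hk : Countable k := (Module.finBasis ℚ k).equivFun.injective.countable
  have c1 : Countable (MvPolynomial (Fin m) k) := countable_mv _ _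
  have c2 : Countable (MvPolynomial (Fin m) k)[X] := countable_poly _
  obtain ⟨E, hE, hE2⟩ := hc.avoids.diag
    (K := {x : (ℕ × ℕ × ℕ) × ((MvPolynomial (Fin m) k)[X] × (MvPolynomial (Fin m) k)[X]) //
      2 ≤ x.1.1 ∧ 1 ≤ x.1.2.1 ∧ IsFamily x.2.1 x.2.2 x.1.1 x.1.2.2})
    (fun x v => ¬ Good x.1.2.1 x.1.2.2 x.1.1.1 x.1.1.2.1 (N x.1.1.2.1 x.1.1.1 x.1.1.2.2) (point ω v))
    (fun x => h x.1.1.1 x.1.1.2.1 x.1.1.2.2 x.2.1 x.2.2.1 x.1.2.1 x.1.2.2 x.2.2.2)
  exact ⟨E, hE, fun d B A hd hB P Q hPQ => hE2 ⟨((d, B, A), (P, Q)), hd, hB, hPQ⟩⟩

end Pool.Agent.Results.MP_90787a_nt.NormalSequences
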