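import Pool.Agent.U965.ET.DD2
import Pool.Agent.U965.ET.Fun

/-!
# Uniform boundedness over fields with two places, independent of the degree of the map and of the field

Let `p₁ ≠ p₂` be primes and `D ≥ 1`. Let `K` be any field which embeds into an extension of `ℚ_{p₁}` and
into an extension of `ℚ_{p₂}` of degree at most `D` (`LocalDegreeLe`). For `D = 1` these are the fields
contained in both `ℚ_{p₁}` and `ℚ_{p₂}`, for instance the field of all totally `p₁`-adic and totally
`p₂`-adic numbers and all its subfields, or rational function fields in countably many variables over `ℚ`.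

Let `φ` be an endomorphism of degree `d` of the projective line over `K` which is a composition of
invertible linear maps and of exactly `k ≥ 1` maps which are power maps `(x : y) ↦ (x ^ m : y ^ m)`, `m ≥ 2`
prime to `badPower D p₁ p₂`, or Dickson (Chebyshev) maps `(x : y) ↦ (D_l (x, a y ^ 2) : y ^ l)`, `a ∈ K`, `l`
a prime not dividing `badDickson D p₁ p₂`. For `D = 1`, `{p₁, p₂} = {2, 3}` the conditions are: `m` odd and
`l ≥ 5`.

Theorem. All `K`-rational preperiodic points of `φ` are fixed by the `N`-th iterate, where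
`N = 6 ((max (p₁ ^ D, p₂ ^ D) + 1)!) ^ ((2 k + 2) max (p₁ ^ D, p₂ ^ D))` depends neither on the degree `d` of
the map nor on the degree of `K` over `ℚ`, which may be infinite. There are at most `d ^ N + 2` of them. If
only power maps are used and `K` has a real embedding, then there are at most `8 k N + 4` of them.

So, for example, the number of totally real, totally `2`-adic and totally `3`-adic preperiodic points of
`φ` is bounded in terms of `k` alone for all compositions of `k` odd power maps and of Moebius maps with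
totally real, totally `2`-adic and totally `3`-adic coefficients.

Proof. `U965/ET`: an embedding of `K` into an extension of `ℚ_p` of degree at most `D` gives a discrete
place of `K` above `p` with residue degree and ramification index at most `D`. Every map in the list is then
a good stage in the sense of project UR of helper236 (library; parts by helpers 56, 78, 87, 106, 160, 222,
278, 281, 318, 360, 514, 622, 727, 803, 823, 878), for a cycle the number of the stages bounds the exponents of the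
prime factors of its length, and the last part follows from the theorem on fixed points of compositions of
`k` odd powers and Moebius maps over the real numbers.
-/

set_option autoImplicit false

open Polynomial

namespace Pool.Agent.Results.MP_90787a_nt.PeriodsOverTotallyAdicFields

/-- The field `K` embeds into an extension of `ℚ_p` of degree at most `D`. -/
def LocalDegreeLe (K : Type) [Field K] (p : ℕ) [Fact p.Prime] (D : ℕ) : Prop :=
  ∃ (E : Type) (_ : Field E) (_ : Algebra ℚ_[p] E),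
    FiniteDimensional ℚ_[p] E ∧ Module.finrank ℚ_[p] E ≤ D ∧ Nonempty (K →+* E)

/-- The product of all `p₁ ^ f - 1` and `p₂ ^ f - 1` with `1 ≤ f ≤ D` and of those of `p₁`, `p₂` which
are at most `D + 1`. -/
def badPower (D p₁ p₂ : ℕ) : ℕ :=
  (if p₁ ≤ D + 1 then p₁ else 1) * (if p₂ ≤ D + 1 then p₂ else 1) *
    ∏ f ∈ Finset.Icc 1 D, ((p₁ ^ f - 1) * (p₂ ^ f - 1))

/-- The product of `p₁`, `p₂` and of all `p₁ ^ (2 f) - 1` and `p₂ ^ (2 f) - 1` with `1 ≤ f ≤ D`. -/
def badDickson (D p₁ p₂ : ℕ) : ℕ :=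
  p₁ * p₂ * ∏ f ∈ Finset.Icc 1 D, ((p₁ ^ (2 * f) - 1) * (p₂ ^ (2 * f) - 1))

/-- Homogeneous self-maps of `K ^ 2` of degree `d` (endomorphisms of the projective line): compositions of
invertible linear maps and of exactly `k` maps which are power maps with exponents `m ≥ 2` prime to `b` or
Dickson maps of prime degrees `l` prime to `c`. -/
inductive Line (K : Type) [Field K] (b c : ℕ) : ℕ → ℕ → (K × K → K × K) → Prop
  | linear (A : Matrix (Fin 2) (Fin 2) K) (hA : A.det ≠ 0) :
      Line K b c 0 1 (fun x => (A 0 0 * x.1 + A 0 1 * x.2, A 1 0 * x.1 + A 1 1 * x.2))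
  | power (m : ℕ) (hm : 2 ≤ m) (h : Nat.Coprime m b) : Line K b c 1 m (fun x => (x.1 ^ m, x.2 ^ m))
  | dickson (l : ℕ) (a : K) (hl : l.Prime) (h : Nat.Coprime l c) :
      Line K b c 1 l (fun x => ((Polynomial.dickson 1 (a * x.2 ^ 2) l).eval x.1, x.2 ^ l))
  | comp (j k d e : ℕ) (f g : K × K → K × K) (hf : Line K b c j d f) (hg : Line K b c k e g) :
      Line K b c (j + k) (d * e) (f ∘ g)

/-- The preperiodic points in the projective line over `K`. -/
def preperiodic {K : Type} [Field K] (f : K × K → K × K) : Set (Projectivization K (K × K)) :=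
  {P | ∃ m n : ℕ, m < n ∧ ∃ c : K, c ≠ 0 ∧ f^[n] P.rep = c • f^[m] P.rep}

/-- The period. -/
def period (D k p₁ p₂ : ℕ) : ℕ :=
  6 * (Nat.factorial (max (p₁ ^ D) (p₂ ^ D) + 1)) ^ ((2 * k + 2) * max (p₁ ^ D) (p₂ ^ D))

open Pool.Agent.N236.UR Pool.Agent.N236.UB Pool.Agent.U965.ET
open scoped LinearAlgebra.Projectivization

section

variable {K : Type} [Field K]

theorem line_cmp {b c k d : ℕ} {f : K × K → K × K} (h : Line K b c k d f) : Cmp K b c k d f := by
  induction h with
  | linear A hA => exact Cmp.linear A hA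
  | power m hm h => exact Cmp.power m hm h
  | dickson l a hl h => exact Cmp.dickson l a hl h
  | comp j k d e f g hf hg ihf ihg => exact Cmp.comp j k d e f g ihf ihg

theorem gp_of {p D : ℕ} [Fact p.Prime] (h : LocalDegreeLe K p D) : GP K D p := by
  obtain ⟨E, i1, i2, h1, h2, ⟨j⟩⟩ := h
  obtain ⟨v, f, e, h3, h4, h5, h6⟩ := loc_of_emb' (p := p) j
  exact ⟨v, f, e, h3, h4.trans h2, h5.trans h2, h6⟩

theorem char_of {p D : ℕ} [Fact p.Prime] (h : LocalDegreeLe K p D) : CharZero K := by
  obtain ⟨E, i1, i2, h1, h2, ⟨j⟩⟩ := h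
  haveI : CharZero E := charZero_of_injective_algebraMap (algebraMap ℚ_[p] E).injective
  exact ⟨fun m n hmn => by
    have := congrArg j hmn
    rw [map_natCast, map_natCast] at this
    exact Nat.cast_injective this⟩

theorem suit (D p₁ p₂ : ℕ) : Suit D p₁ (badPower D p₁ p₂) (badDickson D p₁ p₂) ∧
    Suit D p₂ (badPower D p₁ p₂) (badDickson D p₁ p₂) := by
  have hc : ∀ f, 1 ≤ f → f ≤ D → (p₁ ^ (2 * f) - 1) * (p₂ ^ (2 * f) - 1) ∣ badDickson D p₁ p₂ := by
    intro f h1 h2
    have h : (p₁ ^ (2 * f) - 1) * (p₂ ^ (2 * f) - 1) ∣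
        ∏ f ∈ Finset.Icc 1 D, ((p₁ ^ (2 * f) - 1) * (p₂ ^ (2 * f) - 1)) :=
      Finset.dvd_prod_of_mem (fun f => (p₁ ^ (2 * f) - 1) * (p₂ ^ (2 * f) - 1)) (Finset.mem_Icc.mpr ⟨h1, h2⟩)
    exact h.mul_left _
  refine ⟨⟨fun h => (p_dvd_badM (D := D)).1 h, fun f h1 h2 => (dvd_badM h1 h2).1, ?_, fun f h1 h2 =>
    (Dvd.intro _ rfl).trans (hc f h1 h2)⟩, ⟨fun h => (p_dvd_badM (D := D)).2 h, fun f h1 h2 => (dvd_badM h1 h2).2,
    ?_, fun f h1 h2 => (Dvd.intro_left _ rfl).trans (hc f h1 h2)⟩⟩
  · exact (Dvd.intro _ rfl : p₁ ∣ p₁ * p₂).mul_right _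
  · exact (Dvd.intro_left _ rfl : p₂ ∣ p₁ * p₂).mul_right _

theorem pre_iff {f : K × K → K × K} {d : ℕ} (hf : Hom f d) (P : ℙ K (K × K)) (m n : ℕ) :
    (∃ c : K, c ≠ 0 ∧ f^[n] P.rep = c • f^[m] P.rep) ↔ (actP f)^[m] P = (actP f)^[n] P := by
  have e : ∀ n : ℕ, (actP f)^[n] P = Projectivization.mk K (f^[n] P.rep) (iter_ne hf P.rep_nonzero n) := by
    intro n
    conv_lhs => rw [← P.mk_rep]
    exact actP_iter hf P.rep_nonzero n
  rw [e, e, eq_comm, Projectivization.mk_eq_mk_iff']
  constructor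
  · rintro ⟨c, hc, h⟩
    exact ⟨c, h.symm⟩
  · rintro ⟨c, h⟩
    refine ⟨c, ?_, h.symm⟩
    rintro rfl
    rw [zero_smul] at h
    exact iter_ne hf P.rep_nonzero n h.symm

end

theorem result :
    (∀ (D k p₁ p₂ : ℕ) [Fact p₁.Prime] [Fact p₂.Prime], 1 ≤ k → p₁ ≠ p₂ → ∀ (K : Type) [Field K],
      LocalDegreeLe K p₁ D → LocalDegreeLe K p₂ D → ∀ (d : ℕ) (f : K × K → K × K),
      Line K (badPower D p₁ p₂) (badDickson D p₁ p₂) k d f →
        (∀ P ∈ preperiodic f, ∃ c : K, c ≠ 0 ∧ f^[period D k p₁ p₂] P.rep = c • P.rep) ∧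
        (preperiodic f).Finite ∧ (preperiodic f).ncard ≤ d ^ period D k p₁ p₂ + 2 ∧
        (Line K (badPower D p₁ p₂) 0 k d f → Nonempty (K →+* ℝ) →
          (preperiodic f).ncard ≤ 8 * (k * period D k p₁ p₂) + 4)) ∧
    (∀ (p : ℕ) [Fact p.Prime] (K : Type) [Field K] [Algebra ℚ K] [Algebra.IsAlgebraic ℚ K],
      (∀ x : K, ((minpoly ℚ x).map (algebraMap ℚ ℚ_[p])).Splits) → LocalDegreeLe K p 1) ∧
    (∀ (p : ℕ) [Fact p.Prime] (K : Type) [Field K] [NumberField K],
      LocalDegreeLe K p (Module.finrank ℚ K)) ∧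
    (∀ (p : ℕ) [Fact p.Prime] (ι : Type) [Countable ι] (K : Type) [Field K]
      [Algebra (FractionRing (MvPolynomial ι ℚ)) K]
      [FiniteDimensional (FractionRing (MvPolynomial ι ℚ)) K],
      LocalDegreeLe K p (Module.finrank (FractionRing (MvPolynomial ι ℚ)) K)) := by
  refine ⟨?_, ?_, fun p _ K _ _ => locDeg_nf K le_rfl p, fun p _ ι _ K _ _ _ => locDeg_ff ι K le_rfl p⟩
  · intro D k p₁ p₂ hp₁ hp₂ hk hne K _ hK₁ hK₂ d f hf
    have hc := line_cmp hf
    have hhom := hc.hom
    have hchar : CharZero K := char_of hK₁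
    have hNpos : 1 ≤ NP p₁ p₂ D k := by
      unfold NP
      have := pow_pos (Nat.factorial_pos (max (p₁ ^ D) (p₂ ^ D) + 1)) ((2 * k + 2) * max (p₁ ^ D) (p₂ ^ D))
      omega
    have hD1 : 1 ≤ D := by
      obtain ⟨E, i1, i2, h1, h2, h3⟩ := hK₁
      exact le_trans Module.finrank_pos h2
    have hper := perG hp₁.1 hp₂.1 hne (suit D p₁ p₂).1 (suit D p₁ p₂).2 (gp_of hK₁) (gp_of hK₂) hc le_rfl
    have hsub : preperiodic f ⊆ {P : ℙ K (K × K) | actP f^[NP p₁ p₂ D k] P = P} := by
      rintro P ⟨m, n, hmn, h⟩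
      have h1 := hper P ⟨m, n, hmn, (pre_iff hhom P m n).1 h⟩
      have h2 : ∀ n : ℕ, actP f^[n] P = (actP f)^[n] P := by
        intro n
        conv_rhs => rw [← P.mk_rep]
        rw [actP_iter hhom P.rep_nonzero n]
        conv_lhs => rw [← P.mk_rep]
        exact actP_mk (hc.iter n).hom P.rep_nonzero _
      change actP f^[NP p₁ p₂ D k] P = P
      rw [h2]
      exact h1
    have hfix := fixG (hc.iter (NP p₁ p₂ D k)) (Nat.mul_pos hk hNpos)
    refine ⟨?_, hfix.1.subset hsub, (Set.ncard_le_ncard hsub hfix.1).trans hfix.2, ?_⟩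
    · rintro P ⟨m, n, hmn, h⟩
      have h1 := hper P ⟨m, n, hmn, (pre_iff hhom P m n).1 h⟩
      obtain ⟨c, hc0, h2⟩ := (pre_iff hhom P 0 (NP p₁ p₂ D k)).2 h1.symm
      exact ⟨c, hc0, h2⟩
    · rintro hf0 ⟨σ⟩
      have hpm := ((line_cmp hf0).iter (NP p₁ p₂ D k)).powMoeb
      have hreal := fix_real s_real σ (Nat.mul_pos hk hNpos) hpm
        (fun m hm => odd_of3 hD1 hp₁.1 hp₂.1 hne hm)
      exact (Set.ncard_le_ncard hsub hreal.1).trans hreal.2
  · intro p hp K _ _ _ hsp
    obtain ⟨φ⟩ : Nonempty (K →ₐ[ℚ] ℚ_[p]) := by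
      apply IntermediateField.nonempty_algHom_of_splits
      intro x
      exact ⟨(Algebra.IsAlgebraic.isAlgebraic x).isIntegral, hsp x⟩
    exact ⟨ℚ_[p], inferInstance, inferInstance, inferInstance, (Module.finrank_self _).le, ⟨φ.toRingHom⟩⟩

end Pool.Agent.Results.MP_90787a_nt.PeriodsOverTotallyAdicFields
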